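import Pool.Agent.Helper64.FL.StH
import Pool.Agent.Helper24.FF.Stmts

/-! Full list for MP_866009_co: rings with an even number of links have no Naji system. -/

set_option autoImplicit false

namespace Pool.Agent.Helper24.FF

open Pool.Agent.Helper64.CT Pool.Agent.Helper64.DT Pool.Agent.Helper64.FL
open Pool.Agent.Helper64.HG (Ovl Model Circ IC HellyCircle ChordModel)

theorem st_REB : ST_REB := by
  intro m x y hm m4 h1 h2 h3
  have hch : ∀ t, t + 3 ≤ m → (x 1 (2 + t) = xor (x 1 2) (decide (Odd t))) := by
    intro t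
    induction t with
    | zero => intro _; simp
    | succ t ih =>
      intro ht
      have a1 := ih (by omega)
      have e1 : (2 + t + 1) % m = 2 + (t + 1) := by
        rw [Nat.mod_eq_of_lt (by omega)]; omega
      have a2 := h1 1 (2 + t) (by omega) (by omega) (by omega) (by rw [e1]; omega)
      rw [e1, a1] at a2
      have a3 : decide (Odd (t + 1)) = !(decide (Odd t)) := by
        rw [← decide_not, decide_eq_decide]
        exact Nat.odd_add_one
      rw [a3]
      revert a2
      cases x 1 2 <;> cases decide (Odd t) <;> cases x 1 (2 + (t + 1)) <;> simp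
  have c1 : x 1 2 = x 1 0 := by
    have a1 := hch (m - 3) (by omega)
    have e1 : 2 + (m - 3) = m - 1 := by omega
    have e2 : Odd (m - 3) := by
      obtain ⟨r, hr⟩ := hm
      exact ⟨r - 2, by omega⟩
    have e3 : (m - 1 + 1) % m = 0 := by
      have : m - 1 + 1 = m := by omega
      rw [this, Nat.mod_self]
    have a2 := h1 1 (m - 1) (by omega) (by omega) (by omega) (by rw [e3]; omega)
    rw [e3] at a2
    rw [e1] at a1
    rw [a1] at a2
    simp only [e2, decide_true] at a2
    revert a2
    cases x 1 2 <;> cases x 1 0 <;> simp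
  have e12 : (1 + 1) % m = 2 := Nat.mod_eq_of_lt (by omega)
  have e01 : (0 + 1) % m = 1 := Nat.mod_eq_of_lt (by omega)
  have c2 : x 0 1 ≠ x 0 2 := by
    have := h1 0 1 (by omega) (by omega) (by omega) (by rw [e12]; omega)
    rwa [e12] at this
  have c3 : x 2 0 ≠ x 2 1 := by
    have := h1 2 0 (by omega) (by omega) (by omega) (by rw [e01]; omega)
    rwa [e01] at this
  have d0 := h2 1 2 0 (by omega) (by omega) (by omega) (by omega) (by omega) (by omega)
  have d1 := h2 0 2 1 (by omega) (by omega) (by omega) (by omega) (by omega) (by omega)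
  have d2 := h2 0 1 2 (by omega) (by omega) (by omega) (by omega) (by omega) (by omega)
  have f0 := h3 0 1 (by omega) (by omega) (by omega)
  have f1 := h3 0 2 (by omega) (by omega) (by omega)
  have f2 := h3 1 2 (by omega) (by omega) (by omega)
  rw [c1] at d2
  generalize x 1 0 = p1 at *
  generalize x 0 1 = p2 at *
  generalize x 0 2 = p3 at *
  generalize x 2 0 = p4 at *
  generalize x 2 1 = p5 at *
  generalize y 0 1 = q1 at *
  generalize y 1 0 = q2 at *
  generalize y 0 2 = q3 at *
  generalize y 2 0 = q4 at *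
  generalize y 1 2 = q5 at *
  generalize y 2 1 = q6 at *
  clear c1 hch h1 h2 h3
  have g1 : p3 = !p2 := by revert c2; cases p2 <;> cases p3 <;> simp
  have g2 : p5 = !p4 := by revert c3; cases p4 <;> cases p5 <;> simp
  have g3 : q2 = !q1 := by revert f0; cases q1 <;> cases q2 <;> simp
  have g4 : q4 = !q3 := by revert f1; cases q3 <;> cases q4 <;> simp
  have g5 : q6 = !q5 := by revert f2; cases q5 <;> cases q6 <;> simp
  subst g1 g2 g3 g4 g5
  clear c2 c3 f0 f1 f2
  revert d0 d1 d2
  cases p1 <;> cases p2 <;> cases p4 <;> cases q1 <;> cases q3 <;> cases q5 <;> simp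

theorem st_REN (h1 : ST_RAL) (h2 : ST_CLA) : ST_REN := by
  intro V G S m n P hR hm m4 hS hN
  obtain ⟨b, hb1, hb2, hb3⟩ := hN
  have hb : NS G S b := ⟨hb1, hb2, hb3⟩
  have hd : ∀ j, j < m → (P j).head? = some ((P j).headD (n 0)) := by
    intro j hj
    have := hR.len j hj
    cases hP : P j with
    | nil => rw [hP] at this; simp at this
    | cons a l => simp
  have hmem : ∀ j, j < m → (P j).headD (n 0) ∈ P j := fun j hj =>
    List.mem_of_mem_head? (hd j hj)
  have hinj : ∀ i j, i < m → j < m → i ≠ j → n i ≠ n j := fun i j hi hj hij =>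
    (hR.clq i j hi hj hij).ne
  have hsm : ∀ j, j < m → (j + 1) % m < m := fun j hj => Nat.mod_lt _ (by omega)
  have hsn : ∀ j, j < m → (j + 1) % m ≠ j := by
    intro j hj h
    rcases Nat.lt_or_ge (j + 1) m with h' | h'
    · rw [Nat.mod_eq_of_lt h'] at h; omega
    · have : j + 1 = m := by omega
      rw [this, Nat.mod_self] at h; omega
  -- the head of `P j` is adjacent to `n j` only
  have hfar : ∀ i j, i < m → j < m → i ≠ j → ¬ G.Adj (n i) ((P j).headD (n 0)) := by
    intro i j hi hj hij hadj
    by_cases hij2 : i = (j + 1) % m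
    · subst hij2
      have := (hR.lst j hj _ (hmem j hj)).1 hadj
      have hl := hR.len j hj
      have hp := hR.pth j hj
      cases hP : P j with
      | nil => rw [hP] at hl; simp at hl
      | cons a l =>
        rw [hP] at this hl hp
        cases l with
        | nil => simp at hl
        | cons c l =>
          simp only [List.headD_cons] at this
          rw [List.getLast?_cons_cons] at this
          exact hp.1 a (List.mem_of_getLast? this) rfl
    · exact hR.cln j i hj hi hij hij2 _ (hmem j hj) hadj
  refine st_REB m (fun i j => b (n i) ((P j).headD (n 0))) (fun i j => b (n i) (n j)) hm m4 ?_ ?_ ?_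
  · intro i j hi hj hji hji1
    refine h1 V G S b m n P (n i) _ _ j hR hb hj (hS i hi).1 hS ?_ ?_ (hinj i j hi hj hji.symm)
      (hinj i _ hi (hsm j hj) hji1.symm) ?_ (hd _ (hsm j hj)) (hd j hj)
    · intro i' hi'
      by_cases h : i = i'
      · exact Or.inl (by rw [h])
      · exact Or.inr (hR.clq i i' hi hi' h)
    · intro i' hi' x hx
      exact (hR.dis i' i hi' hi x hx).symm
    · intro i' hi' hne x hx hadj
      by_contra hc
      refine hR.cln i' i hi' hi ?_ ?_ x hx hadj
      · rintro rfl; exact hne rfl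
      · rintro rfl; exact hc rfl
  · intro i i' j hi hi' hj hij hi'j hii'
    refine (h2 V G S b hb).2 (n j) (hS j hj).1 _ ((hS j hj).2 _ (hmem j hj)) (n i) (hS i hi).1
      (n i') (hS i' hi').1 ?_ (hR.clq j i hj hi hij.symm) (hR.clq j i' hj hi' hi'j.symm)
      (hR.dis j i hj hi _ (hmem j hj)) (hR.dis j i' hj hi' _ (hmem j hj)) ?_ ?_
      (hR.clq i i' hi hi' hii')
    · exact (hR.fst j hj _ (hmem j hj)).2 (hd j hj)
    · exact fun h => hfar i j hi hj hij h.symm
    · exact fun h => hfar i' j hi' hj hi'j h.symm
  · intro i j hi hj hij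
    exact hb1 _ (hS i hi).1 _ (hS j hj).1 (hR.clq i j hi hj hij)

end Pool.Agent.Helper24.FF

namespace Pool.Agent.Helper64.FL

open Pool.Agent.Helper64.CT Pool.Agent.Helper64.DT
open Pool.Agent.Helper64.HG (Ovl Model Circ IC HellyCircle ChordModel)

theorem st_RGE (h1 : Pool.Agent.Helper24.FF.ST_RAL) (h2 : Pool.Agent.Helper24.FF.ST_CLA) :
    ST_RGE :=
  Pool.Agent.Helper24.FF.st_REN h1 h2

end Pool.Agent.Helper64.FL
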