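import Pool.Agent.Helper64.FL.StC

/-! BCX: shortest paths for a cycle of connections. -/

set_option autoImplicit false

namespace Pool.Agent.Helper64.FL

open Pool.Agent.Helper64.CT Pool.Agent.Helper64.DT
open Pool.Agent.Helper64.HG (Ovl Model Circ IC HellyCircle ChordModel)

theorem st_BCX (hSPN : ST_SPN) (hEWD : ST_EWD) (hRAY : ST_RAY) (hXSB : ST_XSB) (hCNB : ST_CNB) :
    ST_BCX := by
  classical
  intro V G Q σ hE m q u0 w0 m3 pq pu0 pw0 inj hB
  obtain ⟨R1, R2, -, R4, -, -⟩ := hRAY V G Q hE.red.df hE.mx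
  obtain ⟨-, -, -, -, -, -, C7⟩ := hCNB V G
  have key : ∀ i, ∃ (y : V) (M : List V) (z : V), y ∈ {v | G.Adj (q i) v} ∧ y ∈ ZZ G Q (q i) (q (i + 1)) ∧
      z ∈ {v | G.Adj (q (i + 1)) v} ∧ z ∈ ZZ G Q (q i) (q (i + 1)) ∧
      Pth G y M z ∧ (∀ u ∈ M, u ∈ ZZ G Q (q i) (q (i + 1)) ∧ u ∉ {v | G.Adj (q i) v} ∧
        u ∉ {v | G.Adj (q (i + 1)) v}) ∧
      (y ≠ z → y ∉ {v | G.Adj (q (i + 1)) v} ∧ z ∉ {v | G.Adj (q i) v}) := by
    intro i
    apply hSPN V G (ZZ G Q (q i) (q (i + 1))) {v | G.Adj (q i) v} {v | G.Adj (q (i + 1)) v}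
    obtain ⟨-, h2, h3, h4⟩ := hB i
    exact ⟨u0 i, h2.2.1, w0 (i + 1), h3.2.1, h4⟩
  choose y M z yA yS zB zS hP hM hyz using key
  have mpos : 0 < m := by omega
  have per : ∀ {α : Type} (f : ℕ → α), (∀ i, f (i + m) = f i) → ∀ i, f (i % m) = f i :=
    fun f hf i => Function.Periodic.map_mod_nat (f := f) hf i
  have e0 : ∀ i, q (i % m) = q i := per q pq
  have e1 : ∀ i, q (i % m + 1) = q (i + 1) :=
    per (fun i => q (i + 1)) (fun i => by
      have := pq (i + 1)
      rw [show i + 1 + m = i + m + 1 by ring] at this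
      exact this)
  have emod : ∀ i, (i + 1 + (m - 1)) % m = i % m := by
    intro i
    rw [show i + 1 + (m - 1) = i + m by omega, Nat.add_mod_right]
  have qQ : ∀ i, q i ∈ Q := fun i => (hB i).2.1.1
  have qne : ∀ i, q i ≠ q (i + 1) := fun i => (hB i).1
  have rY : ∀ i, RayQ G Q (q i) (y i) := fun i => ⟨qQ i, yA i, (yS i).1⟩
  have rZ : ∀ i, RayQ G Q (q (i + 1)) (z i) := fun i => ⟨qQ _, zB i, (zS i).1⟩
  have nyz : ∀ i, y i ≠ z i := by
    intro i h
    have h1 := rZ i
    rw [← h] at h1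
    exact qne i (R2 _ _ _ (rY i) h1)
  have hI : ∀ i, IPt G (y i :: (M i ++ [z i])) := by
    intro i
    rcases hP i with ⟨h, -⟩ | ⟨-, h⟩
    · exact absurd h (nyz i)
    · exact h
  have hCn : ∀ i, Cn G (ZZ G Q (q i) (q (i + 1))) (y i) (z i) :=
    fun i => C7 _ _ _ _ (hP i) ⟨yS i, zS i, fun u hu => (hM i u hu).1⟩
  refine ⟨fun i => y (i % m) :: (M (i % m) ++ [z (i % m)]), fun i => y (i % m),
    fun i => z ((i + (m - 1)) % m), ?_, ?_⟩
  · refine ⟨m3, pq, ?_, ?_, ?_, inj, ?_, ?_, ?_, ?_, ?_, ?_⟩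
    · intro i
      rw [Nat.add_mod_right]
    · intro i
      rw [Nat.add_mod_right]
    · intro i
      rw [show i + m + (m - 1) = i + (m - 1) + m by ring, Nat.add_mod_right]
    · intro i
      have h := rY (i % m)
      rw [e0] at h
      exact h
    · intro i
      have h := rZ ((i + (m - 1)) % m)
      rw [e1, show i + (m - 1) + 1 = i + m by omega, pq] at h
      exact h
    · intro i
      exact hI (i % m)
    · intro i
      rfl
    · intro i
      rw [emod, ← List.cons_append, List.getLast?_append]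
      rfl
    · intro i v hv
      rw [emod]
      have hh := hyz (i % m) (nyz (i % m))
      have s0 := e0 i
      have s1 := e1 i
      rcases List.mem_cons.mp hv with rfl | hv
      · refine ⟨by have := yS (i % m); rwa [s0, s1] at this, fun _ => rfl, fun h => ?_⟩
        have h' := hh.1
        rw [s1] at h'
        exact absurd h h'
      · rcases List.mem_append.mp hv with hv | hv
        · obtain ⟨a1, a2, a3⟩ := hM (i % m) v hv
          rw [s0, s1] at a1
          rw [s0] at a2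
          rw [s1] at a3
          exact ⟨a1, fun h => absurd h a2, fun h => absurd h a3⟩
        · rw [List.mem_singleton] at hv
          subst hv
          refine ⟨by have := zS (i % m); rwa [s0, s1] at this, fun h => ?_, fun _ => rfl⟩
          have h' := hh.2
          rw [s0] at h'
          exact absurd h h'
  · -- the sums
    have hre : ∀ (u w : ℕ → V), (∀ i, w (i + m) = w i) →
        xs (fun i => xor (σ (u i)) (σ (w i))) m = xs (fun i => xor (σ (u i)) (σ (w (i + 1)))) m := by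
      intro u w pw
      rw [(hXSB (fun i => σ (u i)) (fun i => σ (w i)) m).1,
        (hXSB (fun i => σ (u i)) (fun i => σ (w (i + 1))) m).1]
      congr 1
      exact ((hXSB (fun i => σ (w i)) (fun i => σ (w i)) m).2.1 (fun i => by
        show σ (w (i + m)) = σ (w i)
        rw [pw]) 1).symm
    rw [hre _ _ (fun i => by
      show z ((i + m + (m - 1)) % m) = z ((i + (m - 1)) % m)
      rw [show i + m + (m - 1) = i + (m - 1) + m by ring, Nat.add_mod_right]), hre _ _ pw0]
    apply (hXSB _ _ m).2.2.2.1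
    intro i hi
    rw [emod, Nat.mod_eq_of_lt hi]
    have n02 : q i ≠ q (i + 2) := inj i (i + 2) (by omega) (by omega)
    have n12 : q (i + 1) ≠ q (i + 2) := qne (i + 1)
    have b1 : BE G Q (q i) (q (i + 1)) (y i) (z i) := ⟨qne i, rY i, rZ i, hCn i⟩
    have c1 := (R4 _ _ _ _ b1).2.2.2.2 (q (i + 2)) (qQ _) n02.symm n12.symm
    have c2 := (R4 _ _ _ _ (hB i)).2.2.2.2 (q (i + 2)) (qQ _) n02.symm n12.symm
    exact hEWD V G Q σ hE (q i) (q (i + 1)) (q (i + 2)) (y i) (u0 i) (z i) (w0 (i + 1)) (qne i) (qQ _)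
      n02.symm n12.symm (rY i) (hB i).2.1 (rZ i) (hB i).2.2.1 c1 c2

end Pool.Agent.Helper64.FL
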