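import Pool.Agent.Helper64.FL.StG

set_option autoImplicit false

/-! Full list for MP_866009_co: ST_CA1. -/

namespace Pool.Agent.Helper64.FL

open Pool.Agent.Helper64.CT Pool.Agent.Helper64.DT
open Pool.Agent.Helper64.HG (Ovl Model Circ IC HellyCircle ChordModel)

theorem ca1_aux {V : Type} {G : SimpleGraph V} {x y a b : V} {la lb : List V}
    (h : NetX G x la a y lb b) (hxl : x ∉ la) (hyl : y ∉ lb) (hxa : x ≠ a) (hyb : y ≠ b) :
    (x ≠ b ∧ ¬ G.Adj x b) ∧ (y ≠ a ∧ ¬ G.Adj y a) ∧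
    (∀ u ∈ la, ∀ w ∈ lb, u ≠ w ∧ ¬ G.Adj u w) ∧
    (∀ u ∈ la, y ≠ u ∧ b ≠ u ∧ ¬ G.Adj y u ∧ ¬ G.Adj b u) ∧
    (∀ w ∈ lb, x ≠ w ∧ a ≠ w ∧ ¬ G.Adj x w ∧ ¬ G.Adj a w) := by
  refine ⟨⟨(h x (Or.inl rfl) b (Or.inr (Or.inr rfl))).1,
      fun hh => hyb ((h x (Or.inl rfl) b (Or.inr (Or.inr rfl))).2 hh).2.symm⟩,
    ⟨(h a (Or.inr (Or.inr rfl)) y (Or.inl rfl)).1.symm,
      fun hh => hxa ((h a (Or.inr (Or.inr rfl)) y (Or.inl rfl)).2 hh.symm).1.symm⟩, ?_, ?_, ?_⟩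
  · intro u hu w hw
    obtain ⟨h1, h2⟩ := h u (Or.inr (Or.inl hu)) w (Or.inr (Or.inl hw))
    refine ⟨h1, fun hh => ?_⟩
    obtain ⟨rfl, _⟩ := h2 hh
    exact hxl hu
  · intro u hu
    obtain ⟨h1, h2⟩ := h u (Or.inr (Or.inl hu)) y (Or.inl rfl)
    obtain ⟨h3, h4⟩ := h u (Or.inr (Or.inl hu)) b (Or.inr (Or.inr rfl))
    refine ⟨h1.symm, h3.symm, fun hh => ?_, fun hh => ?_⟩
    · obtain ⟨rfl, _⟩ := h2 hh.symm
      exact hxl hu
    · obtain ⟨rfl, _⟩ := h4 hh.symm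
      exact hxl hu
  · intro w hw
    obtain ⟨h1, h2⟩ := h x (Or.inl rfl) w (Or.inr (Or.inl hw))
    obtain ⟨h3, h4⟩ := h a (Or.inr (Or.inr rfl)) w (Or.inr (Or.inl hw))
    refine ⟨h1, h3, fun hh => ?_, fun hh => ?_⟩
    · obtain ⟨_, rfl⟩ := h2 hh
      exact hyl hw
    · obtain ⟨_, rfl⟩ := h4 hh
      exact hyl hw

theorem st_CA1 (h1 : ST_CIB) (h2 : ST_PTB) : ST_CA1 := by
  intro V G hNo v a b c hC x y z la lb lc hN hxa hyb hzc
  obtain ⟨_, _, nab, nac, nbc, dab, dac, dbc, _, _, _⟩ := (h1 V G).2.1 _ _ _ _ _ hC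
  obtain ⟨_, hP, _, _, _, _⟩ := h2 V G
  obtain ⟨xla, ala, _⟩ := hP _ _ _ hN.pa
  obtain ⟨ylb, blb, _⟩ := hP _ _ _ hN.pb
  obtain ⟨zlc, clc, _⟩ := hP _ _ _ hN.pc
  obtain ⟨⟨xb, dxb⟩, ⟨ya, dya⟩, sab, sa1, sb1⟩ := ca1_aux hN.ab xla ylb hxa hyb
  obtain ⟨⟨xc, dxc⟩, ⟨za, dza⟩, sac, sa2, sc1⟩ := ca1_aux hN.ac xla zlc hxa hzc
  obtain ⟨⟨yc, dyc⟩, ⟨zb, dzb⟩, sbc, sb2, sc2⟩ := ca1_aux hN.bc ylb zlc hyb hzc
  have hv : ∀ u, (u = x ∨ u = y ∨ u = z ∨ u ∈ la ∨ u ∈ lb ∨ u ∈ lc ∨ u = a ∨ u = b ∨ u = c) →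
      u ≠ v := hN.inS
  have hvx : v ≠ x := (hv x (by simp)).symm
  have hvy : v ≠ y := (hv y (by simp)).symm
  have hvz : v ≠ z := (hv z (by simp)).symm
  have vla : v ∉ la := fun h => hv v (by simp [h]) rfl
  have vlb : v ∉ lb := fun h => hv v (by simp [h]) rfl
  have vlc : v ∉ lc := fun h => hv v (by simp [h]) rfl
  have pa : IPt G (x :: (la ++ [a])) := by
    rcases hN.pa with h | h
    · exact absurd h.1 hxa
    · exact h.2
  have pb : IPt G (y :: (lb ++ [b])) := by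
    rcases hN.pb with h | h
    · exact absurd h.1 hyb
    · exact h.2
  have pc : IPt G (z :: (lc ++ [c])) := by
    rcases hN.pc with h | h
    · exact absurd h.1 hzc
    · exact h.2
  refine hNo preA1n (by simp [preCIs]) (fun i => ([v, a, b, c, x, y, z] : List V).getD i v)
    [la, lb, lc] ⟨?_, ?_, ?_, ?_, ?_, ?_, ?_, ?_, ?_, ?_, ?_⟩
  · simp [preA1n, hC.va, hC.vb, hC.vc, hN.xy, hN.xz, hN.yz]
  · simp [preA1n, nab, nac, nbc, dab, dac, dbc, xb, dxb, ya, dya, xc, dxc, za, dza, yc, dyc,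
      zb, dzb]
  · simp [preA1n, hxa, hyb, hzc, hvx, hvy, hvz]
  · simp [preA1n]
  · simp [preA1n]
  · simp [preA1n]
  · simp [preA1n, hxa, hyb, hzc]
  · simp [preA1n, hxa, hyb, hzc, pa, pb, pc]
  · have bla : b ∉ la := fun h => (sa1 b h).2.1 rfl
    have yla : y ∉ la := fun h => (sa1 y h).1 rfl
    have cla : c ∉ la := fun h => (sa2 c h).2.1 rfl
    have zla : z ∉ la := fun h => (sa2 z h).1 rfl
    have xlb : x ∉ lb := fun h => (sb1 x h).1 rfl
    have alb : a ∉ lb := fun h => (sb1 a h).2.1 rfl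
    have clb : c ∉ lb := fun h => (sb2 c h).2.1 rfl
    have zlb : z ∉ lb := fun h => (sb2 z h).1 rfl
    have xlc : x ∉ lc := fun h => (sc1 x h).1 rfl
    have alc : a ∉ lc := fun h => (sc1 a h).2.1 rfl
    have ylc : y ∉ lc := fun h => (sc2 y h).1 rfl
    have blc : b ∉ lc := fun h => (sc2 b h).2.1 rfl
    intro q hq i hi
    simp only [preA1n, List.zip_cons_cons, List.zip_nil_left, List.mem_cons,
      List.not_mem_nil, or_false] at hq
    change i < 7 at hi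
    rcases hq with rfl | rfl | rfl <;> interval_cases i <;> simp <;> assumption
  · intro q hq i hi hU hn1 hn2
    simp only [preA1n, List.zip_cons_cons, List.zip_nil_left, List.mem_cons,
      List.not_mem_nil, or_false] at hq
    change i < 7 at hi
    rcases hq with rfl | rfl | rfl
    · interval_cases i
      · simp at hU
      · simp at hn2
      · intro u hu; exact (sa1 u hu).2.2.2
      · intro u hu; exact (sa2 u hu).2.2.2
      · simp at hn1
      · intro u hu; exact (sa1 u hu).2.2.1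
      · intro u hu; exact (sa2 u hu).2.2.1
    · interval_cases i
      · simp at hU
      · intro u hu; exact (sb1 u hu).2.2.2
      · simp at hn2
      · intro u hu; exact (sb2 u hu).2.2.2
      · intro u hu; exact (sb1 u hu).2.2.1
      · simp at hn1
      · intro u hu; exact (sb2 u hu).2.2.1
    · interval_cases i
      · simp at hU
      · intro u hu; exact (sc1 u hu).2.2.2
      · intro u hu; exact (sc2 u hu).2.2.2
      · simp at hn2
      · intro u hu; exact (sc1 u hu).2.2.1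
      · intro u hu; exact (sc2 u hu).2.2.1
      · simp at hn1
  · simp only [List.pairwise_cons, List.mem_cons, List.not_mem_nil, or_false,
      forall_eq_or_imp, forall_eq, IsEmpty.forall_iff, implies_true, List.Pairwise.nil,
      and_true]
    exact ⟨⟨sab, sac⟩, sbc⟩

end Pool.Agent.Helper64.FL
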