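import Pool.Agent.Helper64.FL.StH

/-! Full list for MP_866009_co: combinatorics of the cyclic word of blocks. -/

set_option autoImplicit false

namespace Pool.Agent.Helper64.FL

open Pool.Agent.Helper64.CT Pool.Agent.Helper64.DT
open Pool.Agent.Helper64.HG (Ovl Model Circ IC HellyCircle ChordModel)

/-- nontrivial gaps have even length -/
theorem nkw_ev (k : ℕ) (B : ℕ → ℕ → Prop)
    (F2 : ∀ i j, i + 3 ≤ j → j < i + k → Odd (j - i) → B i j → ∃ l, i < l ∧ l < j ∧ B i l)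
    (i j : ℕ) (h1 : i + 2 ≤ j) (h2 : j < i + k) (h3 : B i j)
    (h4 : ∀ l, i < l → l < j → ¬ B i l) : Even (j - i) := by
  by_contra hc
  rw [Nat.not_even_iff_odd] at hc
  have h5 : i + 3 ≤ j := by
    obtain ⟨r, hr⟩ := hc
    omega
  obtain ⟨l, hl1, hl2, hl3⟩ := F2 i j h5 h2 hc h3
  exact h4 l hl1 hl2 hl3

/-- classes with a nontrivial gap are intervals -/
theorem nkw_int (k : ℕ) (B : ℕ → ℕ → Prop) (hk : Odd k) (hs : ∀ i j, B i j → B j i)
    (ht : ∀ i j l, B i j → B j l → B i l) (hp : ∀ i, B i (i + k))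
    (F2 : ∀ i j, i + 3 ≤ j → j < i + k → Odd (j - i) → B i j → ∃ l, i < l ∧ l < j ∧ B i l)
    (F1 : ∀ i j i' j', i + 2 ≤ j → j ≤ i' → i' + 2 ≤ j' → j' ≤ i + k → ¬ (j = i' ∧ j' = i + k) →
      B i j → B i' j' → B i i' → (∀ l, i < l → l < j → ¬ B i l) → ∃ l, i' < l ∧ l < j' ∧ B i' l)
    (i j : ℕ) (h1 : i + 2 ≤ j) (h2 : j < i + k) (h3 : B i j)
    (h4 : ∀ l, i < l → l < j → ¬ B i l) : ∀ l, j ≤ l → l ≤ i + k → B i l := by
  classical
  intro l hl1 hl2
  by_contra hc
  -- largest index at most `l`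
  obtain ⟨i', hi1, hi2, hi3⟩ : ∃ i', i' ≤ l ∧ B i i' ∧ ∀ m, i' < m → m ≤ l → ¬ B i m := by
    refine ⟨Nat.findGreatest (fun m => B i m) l, Nat.findGreatest_le l,
      Nat.findGreatest_spec (P := fun m => B i m) hl1 h3, ?_⟩
    intro m hm1 hm2
    exact Nat.findGreatest_is_greatest hm1 hm2
  have hji : j ≤ i' := by
    by_contra hlt
    exact hi3 j (by omega) hl1 h3
  have hex : ∃ m, l ≤ m ∧ B i m := ⟨i + k, hl2, hp i⟩
  obtain ⟨j', hj1, hj2, hj3⟩ : ∃ j', l ≤ j' ∧ B i j' ∧ ∀ m, l ≤ m → m < j' → ¬ B i m := by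
    refine ⟨Nat.find hex, (Nat.find_spec hex).1, (Nat.find_spec hex).2, ?_⟩
    intro m hm1 hm2 hm3
    exact Nat.find_min hex hm2 ⟨hm1, hm3⟩
  have hjk : j' ≤ i + k := by
    by_contra hlt
    exact hj3 (i + k) hl2 (by omega) (hp i)
  have hil : i' < l := by
    rcases Nat.lt_or_ge i' l with h | h
    · exact h
    · exfalso
      have : i' = l := by omega
      exact hc (this ▸ hi2)
  have hjl : l < j' := by
    rcases Nat.lt_or_ge l j' with h | h
    · exact h
    · exfalso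
      have : j' = l := by omega
      exact hc (this ▸ hj2)
  have hno : ∀ m, i' < m → m < j' → ¬ B i m := by
    intro m hm1 hm2
    rcases Nat.lt_or_ge m l with h | h
    · exact hi3 m hm1 (by omega)
    · exact hj3 m h hm2
  by_cases hq : j = i' ∧ j' = i + k
  · obtain ⟨rfl, rfl⟩ := hq
    have e1 := nkw_ev k B F2 i j h1 h2 h3 h4
    have e2 := nkw_ev k B F2 j (i + k) (by omega) (by omega) (ht _ _ _ (hs _ _ h3) (hp i))
      (fun m hm1 hm2 hm3 => hno m hm1 hm2 (ht _ _ _ h3 hm3))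
    obtain ⟨a, ha⟩ := e1
    obtain ⟨b, hb⟩ := e2
    obtain ⟨c, hc'⟩ := hk
    omega
  · obtain ⟨m, hm1, hm2, hm3⟩ := F1 i j i' j' h1 hji (by omega) hjk hq h3
      (ht _ _ _ (hs _ _ hi2) hj2) hi2 h4
    exact hno m hm1 hm2 (ht _ _ _ hi2 hm3)

theorem st_NKW : ST_NKW := by
  classical
  intro k B hk k5 hr hs ht hp hst F2 F1
  by_cases hall : ∀ i j, B i j
  · exact Or.inl hall
  right
  by_cases hsg : ∃ i, ∀ j, i < j → j < i + k → ¬ B i j
  · obtain ⟨i, hi⟩ := hsg
    refine ⟨i, ?_⟩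
    have h1 : B (i + 1) (i + k - 1) := hst i (i + k) (by omega) le_rfl (hp i) hi
    have h2 : B (i + k - 1) (i + k + 1) := by
      have := hp (i + 1)
      have e : i + 1 + k = i + k + 1 := by omega
      rw [e] at this
      exact ht _ _ _ (hs _ _ h1) this
    have h3 : ∀ l, i + k - 1 < l → l < i + k + 1 → ¬ B (i + k - 1) l := by
      intro l hl1 hl2 hl3
      have e : l = i + k := by omega
      subst e
      exact hi (i + k - 1) (by omega) (by omega) (ht _ _ _ (hp i) (hs _ _ hl3))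
    have h4 := nkw_int k B hk hs ht hp F2 F1 (i + k - 1) (i + k + 1) (by omega) (by omega) h2 h3
    have h5 : ∀ j, i < j → j < i + k → B (i + k - 1) j := by
      intro j hj1 hj2
      exact ht _ _ _ (h4 (j + k) (by omega) (by omega)) (hs _ _ (hp j))
    intro j hj1 hj2
    refine ⟨hi j hj1 hj2, ?_⟩
    intro l hl1 hl2
    exact ht _ _ _ (hs _ _ (h5 j hj1 hj2)) (h5 l hl1 hl2)
  · exfalso
    push Not at hsg
    have hgap : ∃ i, ¬ B i (i + 1) := by
      by_contra hc
      push Not at hc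
      apply hall
      have h0 : ∀ i, B 0 i := by
        intro i
        induction i with
        | zero => exact hr 0
        | succ n ih => exact ht _ _ _ ih (hc n)
      intro i j
      exact ht _ _ _ (hs _ _ (h0 i)) (h0 j)
    obtain ⟨i, hi⟩ := hgap
    obtain ⟨j0, hj01, hj02, hj03⟩ := hsg i
    have hex : ∃ m, i < m ∧ B i m := ⟨j0, hj01, hj03⟩
    obtain ⟨j, hj1, hj2, hj3, hj4⟩ : ∃ j, i < j ∧ B i j ∧ (∀ m, i < m → m < j → ¬ B i m) ∧
        j ≤ j0 := by
      refine ⟨Nat.find hex, (Nat.find_spec hex).1, (Nat.find_spec hex).2, ?_,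
        Nat.find_min' hex ⟨hj01, hj03⟩⟩
      intro m hm1 hm2 hm3
      exact Nat.find_min hex hm2 ⟨hm1, hm3⟩
    have hj5 : i + 2 ≤ j := by
      rcases Nat.lt_or_ge j (i + 2) with h | h
      · exfalso
        have e : j = i + 1 := by omega
        exact hi (e ▸ hj2)
      · exact h
    have hint := nkw_int k B hk hs ht hp F2 F1 i j hj5 (by omega) hj2 hj3
    have hstar := hst i j hj5 (by omega) hj2 hj3
    rcases Nat.lt_or_ge j (i + 3) with h | h
    · have e : j = i + 2 := by omega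
      obtain ⟨m, hm1, hm2, hm3⟩ := hsg (i + 1)
      exact hi (ht _ _ _ (hint m (by omega) (by omega)) (hs _ _ hm3))
    · have h6 : B (j - 1) (i + 1 + k) := ht _ _ _ (hs _ _ hstar) (hp (i + 1))
      have h7 : ∀ l, j - 1 < l → l < i + 1 + k → ¬ B (j - 1) l := by
        intro l hl1 hl2 hl3
        exact hj3 (j - 1) (by omega) (by omega)
          (ht _ _ _ (hint l (by omega) (by omega)) (hs _ _ hl3))
      have e1 := nkw_ev k B F2 i j hj5 (by omega) hj2 hj3
      have e2 := nkw_ev k B F2 (j - 1) (i + 1 + k) (by omega) (by omega) h6 h7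
      obtain ⟨a, ha⟩ := e1
      obtain ⟨b, hb⟩ := e2
      obtain ⟨c, hc⟩ := hk
      omega

end Pool.Agent.Helper64.FL
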