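import Pool.Agent.Helper64.FL.StH

/-! Full list for MP_866009_co: three pairwise nonadjacent neighbours in a Naji system. -/

set_option autoImplicit false

namespace Pool.Agent.Helper64.FL

open Pool.Agent.Helper64.CT Pool.Agent.Helper64.DT
open Pool.Agent.Helper64.HG (Ovl Model Circ IC HellyCircle ChordModel)

theorem ovl_end {V : Type} {G : SimpleGraph V} {S : Set V} {x y : V} (h : Cn G S x y) : y ∈ S := by
  obtain ⟨h1, h2⟩ := h
  induction h2 with
  | refl => exact h1
  | tail _ h3 _ => exact h3.2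

theorem st_OVL (h1 : ST_NJC) : ST_OVL := by
  intro V G S b hb n hn x hx v hv w hw hnx hnv hnw hvw hvw' c1 c2
  have e1 := h1 V G S b hb v hv w x c1
  have e2 := h1 V G S b hb w hw v x c2
  have f1 := (ovl_end c1).2
  have f2 := (ovl_end c2).2
  obtain ⟨-, -, n3⟩ := hb
  have g1 := n3 n hn v hv w hw hnv hnw hvw hvw'
  have g2 := n3 n hn v hv x hx hnv hnx (fun h => f1.1 h.symm) f1.2
  have g3 := n3 n hn w hw x hx hnw hnx (fun h => f2.1 h.symm) f2.2
  rw [e1, e2] at g1
  intro hc
  rw [hc] at g2
  revert g1 g2 g3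
  cases b v x <;> cases b w x <;> cases b n v <;> cases b n w <;> cases b n x <;> cases b x w <;>
    simp

end Pool.Agent.Helper64.FL
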