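import Pool.Agent.Helper64.FL.StG

set_option autoImplicit false

/-! Full list for MP_866009_co: ST_QI7. -/

namespace Pool.Agent.Helper64.FL

open Pool.Agent.Helper64.CT Pool.Agent.Helper64.DT
open Pool.Agent.Helper64.HG (Ovl Model Circ IC HellyCircle ChordModel)

theorem qi7_far {V : Type} {G : SimpleGraph V} {x y u : V} (h : u ∈ KC G x y) :
    x ≠ u ∧ ¬ G.Adj x u := by
  obtain ⟨_, hz, _⟩ := h
  exact ⟨fun e => hz.1 e.symm, hz.2⟩

theorem qi7_nb {V : Type} {G : SimpleGraph V} {x y u n : V} (h : u ∈ KC G x y)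
    (hn : G.Adj x n) : u ≠ n ∧ n ≠ u := by
  have h1 : u ≠ n := by
    rintro rfl
    exact (qi7_far h).2 hn
  exact ⟨h1, h1.symm⟩

theorem st_QI7 (h1 : ST_SEP) (h2 : ST_PTB) : ST_QI7 := by
  intro V G hNo x y1 y2 y3 p p' q t w z Lz r hI L c Lc c' s hL hc ecp ecp' ecs dcp dcp' ecs'
    ets exs
  obtain ⟨_, hP, _, _, _, _⟩ := h2 V G
  have s12 := h1 V G x y1 y2 hI.c12
  have s13 := h1 V G x y1 y3 hI.c13
  have s23 := h1 V G x y2 y3 hI.c23
  have zK := hI.zr.lK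
  have rK := hI.zr.rK
  have tK := hI.tK
  have wK := hI.wK
  have cK := hc.lK
  have cK' := hc.rK
  have q2 : ∀ u ∈ KC G x y2, ¬ G.Adj u q := fun u hu hh => hI.q2 ⟨hI.xq, u, hu, hh.symm⟩
  obtain ⟨zLz, rLz, _⟩ := hP _ _ _ hI.zr.pth
  obtain ⟨cLc, cLc', _⟩ := hP _ _ _ hc.pth
  obtain ⟨tL, wL, _⟩ := hP _ _ _ hL.pth
  have ncc : c ≠ c' := by rintro rfl; exact dcp ecp
  have ntw : t ≠ w := by rintro rfl; exact hI.wp' hI.tp'
  have npp' : p ≠ p' := by rintro rfl; exact hI.wp' hI.wp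
  have npq : p ≠ q := by rintro rfl; exact hI.tq hI.tp
  have nps : p ≠ s := by rintro rfl; exact dcp ecs'
  have np'q : p' ≠ q := by rintro rfl; exact hI.tq hI.tp'
  have np's : p' ≠ s := by rintro rfl; exact dcp' ecs'
  have nqs : q ≠ s := by rintro rfl; exact hI.tq ets
  have pc : IPt G (c :: (Lc ++ [c'])) := by
    rcases hc.pth with h | h
    · exact absurd h.1 ncc
    · exact h.2
  have pt : IPt G (t :: (L ++ [w])) := by
    rcases hL.pth with h | h
    · exact absurd h.1 ntw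
    · exact h.2
  have hzr1 : z = r → Lz = [] := by
    intro e
    rcases hI.zr.pth with h | h
    · exact h.2
    · exact absurd e h.1
  have hzr2 : z ≠ r → IPt G (z :: (Lz ++ [r])) := by
    intro e
    rcases hI.zr.pth with h | h
    · exact absurd h.1 e
    · exact h.2
  -- basic non-adjacencies
  have x1 := @qi7_far V G x y1
  have x2 := @qi7_far V G x y2
  have x3 := @qi7_far V G x y3
  have hdis : ∀ (K : Set V) (M : List V), (∀ u ∈ M, u ∈ K) → ∀ v, v ∉ K → v ∉ M :=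
    fun K M h v hv hh => hv (h v hh)
  set f : ℕ → V := fun i => ([x, p, p', q, s, t, w, z, r, c, c'] : List V).getD i x with hf
  have htri : ∀ y ∈ List.zip [(7, 8, [1, 2, 4]), (9, 10, [1, 2, 4]), (5, 6, [1, 2, 3, 4])]
      [Lz, Lc, L], f y.1.1 = f y.1.2.1 → y.2 = [] := by
    simp only [hf, List.zip_cons_cons, List.zip_nil_left, List.mem_cons,
      List.not_mem_nil, or_false]
    rintro y (rfl | rfl | rfl) h
    · exact hzr1 (by simpa using h)
    · exact absurd (by simpa using h) ncc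
    · exact absurd (by simpa using h) ntw
  have hpth : ∀ y ∈ List.zip [(7, 8, [1, 2, 4]), (9, 10, [1, 2, 4]), (5, 6, [1, 2, 3, 4])]
      [Lz, Lc, L], f y.1.1 ≠ f y.1.2.1 → IPt G (f y.1.1 :: (y.2 ++ [f y.1.2.1])) := by
    simp only [hf, List.zip_cons_cons, List.zip_nil_left, List.mem_cons,
      List.not_mem_nil, or_false]
    rintro y (rfl | rfl | rfl) h
    · exact hzr2 (by simpa using h)
    · simpa using pc
    · simpa using pt
  have hD : ∀ y ∈ List.zip [(7, 8, [1, 2, 4]), (9, 10, [1, 2, 4]), (5, 6, [1, 2, 3, 4])]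
      [Lz, Lc, L], ∀ i < 11, f i ∉ y.2 := by
    have a1 : x ∉ Lz := fun h => (x3 (hI.zr.LK x h)).1 rfl
    have a2 : p ∉ Lz := fun h => (x3 (hI.zr.LK p h)).2 hI.xp
    have a3 : p' ∉ Lz := fun h => (x3 (hI.zr.LK p' h)).2 hI.xp'
    have a4 : q ∉ Lz := fun h => (x3 (hI.zr.LK q h)).2 hI.xq
    have a5 : s ∉ Lz := fun h => (x3 (hI.zr.LK s h)).2 exs
    have a6 : t ∉ Lz := fun h => (s13 t tK t (hI.zr.LK t h)).1 rfl
    have a7 : w ∉ Lz := fun h => (s13 w wK w (hI.zr.LK w h)).1 rfl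
    have a8 : c ∉ Lz := fun h => (s23 c cK c (hI.zr.LK c h)).1 rfl
    have a9 : c' ∉ Lz := fun h => (s23 c' cK' c' (hI.zr.LK c' h)).1 rfl
    have b1 : x ∉ Lc := fun h => (x2 (hc.LK x h)).1 rfl
    have b2 : p ∉ Lc := fun h => (x2 (hc.LK p h)).2 hI.xp
    have b3 : p' ∉ Lc := fun h => (x2 (hc.LK p' h)).2 hI.xp'
    have b4 : q ∉ Lc := fun h => (x2 (hc.LK q h)).2 hI.xq
    have b5 : s ∉ Lc := fun h => (x2 (hc.LK s h)).2 exs
    have b6 : t ∉ Lc := fun h => (s12 t tK t (hc.LK t h)).1 rfl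
    have b7 : w ∉ Lc := fun h => (s12 w wK w (hc.LK w h)).1 rfl
    have b8 : z ∉ Lc := fun h => (s23 z (hc.LK z h) z zK).1 rfl
    have b9 : r ∉ Lc := fun h => (s23 r (hc.LK r h) r rK).1 rfl
    have c1 : x ∉ L := fun h => (x1 (hL.LK x h)).1 rfl
    have c2 : p ∉ L := fun h => (x1 (hL.LK p h)).2 hI.xp
    have c3 : p' ∉ L := fun h => (x1 (hL.LK p' h)).2 hI.xp'
    have c4 : q ∉ L := fun h => (x1 (hL.LK q h)).2 hI.xq
    have c5 : s ∉ L := fun h => (x1 (hL.LK s h)).2 exs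
    have c6 : z ∉ L := fun h => (s13 z (hL.LK z h) z zK).1 rfl
    have c7 : r ∉ L := fun h => (s13 r (hL.LK r h) r rK).1 rfl
    have c8 : c ∉ L := fun h => (s12 c (hL.LK c h) c cK).1 rfl
    have c9 : c' ∉ L := fun h => (s12 c' (hL.LK c' h) c' cK').1 rfl
    intro y hy i hi
    simp only [List.zip_cons_cons, List.zip_nil_left, List.mem_cons,
      List.not_mem_nil, or_false] at hy
    rcases hy with rfl | rfl | rfl <;> interval_cases i <;> simp [hf] <;> assumption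
  have hcl : ∀ y ∈ List.zip [(7, 8, [1, 2, 4]), (9, 10, [1, 2, 4]), (5, 6, [1, 2, 3, 4])]
      [Lz, Lc, L], ∀ i < 11, i ∉ y.1.2.2 → f i ≠ f y.1.1 → f i ≠ f y.1.2.1 →
      ∀ x ∈ y.2, ¬ G.Adj (f i) x := by
    intro y hy i hi hU hn1 hn2
    simp only [List.zip_cons_cons, List.zip_nil_left, List.mem_cons,
      List.not_mem_nil, or_false] at hy
    rcases hy with rfl | rfl | rfl
    · interval_cases i <;> simp [hf] at hU hn1 hn2 ⊢
      · exact fun u hu => (x3 (hI.zr.LK u hu)).2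
      · exact fun u hu hh => hI.zr.Lb u hu hh.symm
      · exact fun u hu => (s13 t tK u (hI.zr.LK u hu)).2
      · exact fun u hu => (s13 w wK u (hI.zr.LK u hu)).2
      · exact fun u hu => (s23 c cK u (hI.zr.LK u hu)).2
      · exact fun u hu => (s23 c' cK' u (hI.zr.LK u hu)).2
    · interval_cases i <;> simp [hf] at hU hn1 hn2 ⊢
      · exact fun u hu => (x2 (hc.LK u hu)).2
      · exact fun u hu hh => q2 u (hc.LK u hu) hh.symm
      · exact fun u hu => (s12 t tK u (hc.LK u hu)).2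
      · exact fun u hu => (s12 w wK u (hc.LK u hu)).2
      · exact fun u hu hh => (s23 u (hc.LK u hu) z zK).2 hh.symm
      · exact fun u hu hh => (s23 u (hc.LK u hu) r rK).2 hh.symm
    · interval_cases i <;> simp [hf] at hU hn1 hn2 ⊢
      · exact fun u hu => (x1 (hL.LK u hu)).2
      · exact fun u hu hh => (s13 u (hL.LK u hu) z zK).2 hh.symm
      · exact fun u hu hh => (s13 u (hL.LK u hu) r rK).2 hh.symm
      · exact fun u hu hh => (s12 u (hL.LK u hu) c cK).2 hh.symm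
      · exact fun u hu hh => (s12 u (hL.LK u hu) c' cK').2 hh.symm
  have hsep : List.Pairwise (fun A B : List V => ∀ x ∈ A, ∀ y ∈ B, x ≠ y ∧ ¬ G.Adj x y)
      [Lz, Lc, L] := by
    simp only [List.pairwise_cons, List.mem_cons, List.not_mem_nil, or_false,
      forall_eq_or_imp, forall_eq, IsEmpty.forall_iff, implies_true, List.Pairwise.nil,
      and_true]
    refine ⟨⟨?_, ?_⟩, ?_⟩
    · intro u hu v hv
      obtain ⟨a, b⟩ := s23 v (hc.LK v hv) u (hI.zr.LK u hu)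
      exact ⟨a.symm, fun hh => b hh.symm⟩
    · intro u hu v hv
      obtain ⟨a, b⟩ := s13 v (hL.LK v hv) u (hI.zr.LK u hu)
      exact ⟨a.symm, fun hh => b hh.symm⟩
    · intro u hu v hv
      obtain ⟨a, b⟩ := s12 v (hL.LK v hv) u (hc.LK u hu)
      exact ⟨a.symm, fun hh => b hh.symm⟩
  have e1 := x1 tK
  have e2 := x1 wK
  have e3 := x3 zK
  have e4 := x3 rK
  have e5 := x2 cK
  have e6 := x2 cK'
  have m1 := (qi7_nb tK hI.xq).1
  have m2 := (qi7_nb wK hI.xp').1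
  have m3 := (qi7_nb zK hI.xp).1
  have m4 := (qi7_nb zK hI.xp').1
  have m5 := (qi7_nb zK hI.xq).1
  have m6 := (qi7_nb cK hI.xq).1
  have m7 := (qi7_nb cK' hI.xp).1
  have m8 := (qi7_nb cK' hI.xp').1
  have m9 := (qi7_nb cK' hI.xq).1
  have sy : ∀ {A B : Set V} {u v : V}, Anti G A B → u ∈ A → v ∈ B → v ≠ u ∧ ¬ G.Adj v u :=
    fun h hu hv => ⟨(h _ hu _ hv).1.symm, fun hh => (h _ hu _ hv).2 hh.symm⟩
  have k1 := sy s13 tK zK
  have k2 := sy s13 wK zK
  have k3 := sy s13 tK rK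
  have k4 := sy s13 wK rK
  have k5 := sy s12 tK cK
  have k6 := sy s12 wK cK
  have k7 := s23 c cK z zK
  have k8 := s23 c cK r rK
  have k9 := sy s12 tK cK'
  have k10 := sy s12 wK cK'
  have k11 := s23 c' cK' z zK
  have k12 := s23 c' cK' r rK
  have j1 := q2 c cK
  have j2 := q2 c' cK'
  have hzc : z ≠ r → z ≠ q ∧ ¬ G.Adj z q := fun h => ⟨m5, hI.zr.lr h⟩
  rcases hI.zp with ⟨z1, z2⟩ | ⟨z1, z2⟩
  · refine hNo preIIAa7 (by simp [preBs]) f [Lz, Lc, L] ⟨?_, ?_, ?_, ?_, ?_, rfl, htri, hpth,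
      hD, hcl, hsep⟩
    · simp [preIIAa7, hf, hI.xp, hI.xp', hI.xq, exs, hI.tp, hI.tp', hI.wp, z1, hI.zr.rb, ecp,
        ecp', ecs, ecs', ets]
    · simp [preIIAa7, hf, e1, e2, e3, e4, e5, e6, hI.tq, hI.wp', z2, dcp, dcp', m1, m2, m4, m6,
        m7, m8, m9, k1, k2, k3, k4, k5, k6, k7, k8, k9, k10, k11, k12, j1, j2]
    · simp [preIIAa7, hf, npp', npq, nps, np'q, np's, nqs]
    · simpa [preIIAa7, hf] using hzc
    · simp [preIIAa7]
  · refine hNo preIIAb7 (by simp [preBs]) f [Lz, Lc, L] ⟨?_, ?_, ?_, ?_, ?_, rfl, htri, hpth,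
      hD, hcl, hsep⟩
    · simp [preIIAb7, hf, hI.xp, hI.xp', hI.xq, exs, hI.tp, hI.tp', hI.wp, z1, hI.zr.rb, ecp,
        ecp', ecs, ecs', ets]
    · simp [preIIAb7, hf, e1, e2, e3, e4, e5, e6, hI.tq, hI.wp', z2, dcp, dcp', m1, m2, m3, m6,
        m7, m8, m9, k1, k2, k3, k4, k5, k6, k7, k8, k9, k10, k11, k12, j1, j2]
    · simp [preIIAb7, hf, npp', npq, nps, np'q, np's, nqs]
    · simpa [preIIAb7, hf] using hzc
    · simp [preIIAb7]

end Pool.Agent.Helper64.FL
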