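import Pool.Agent.Helper64.FL.StC

/-! RCX: a cyclic sequence of rays with even sign sum meets every vertex of the clique. -/

set_option autoImplicit false

namespace Pool.Agent.Helper64.FL

open Pool.Agent.Helper64.CT Pool.Agent.Helper64.DT
open Pool.Agent.Helper64.HG (Ovl Model Circ IC HellyCircle ChordModel)

theorem st_RCX (hRCY : ST_RCY) (hSGF : ST_SGF) (hRAY : ST_RAY) (hCNB : ST_CNB) : ST_RCX := by
  intro V G Q σ hE m q u w hR hx z hz
  by_contra hne
  push Not at hne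
  obtain ⟨R1, R2, R3, R4, R5, R6⟩ := hRAY V G Q hE.red.df hE.mx
  obtain ⟨C1, C2, C3, C4, C5, C6, C7⟩ := hCNB V G
  have qQ : ∀ i, q i ∈ Q := fun i => (hR.rU i).1
  have nz : ∀ v, v ∉ Q → v ∈ {v : V | v ≠ z} := fun v hv h => hv (h ▸ hz)
  have qS : ∀ i, q i ∈ {v : V | v ≠ z} := fun i => hne i
  have uS : ∀ i, u i ∈ {v : V | v ≠ z} := fun i => nz _ (hR.rU i).2.2
  have wS : ∀ i, w i ∈ {v : V | v ≠ z} := fun i => nz _ (hR.rW i).2.2
  have qu : ∀ i, G.Adj (q i) (u i) := fun i => (hR.rU i).2.1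
  have qw : ∀ i, G.Adj (q i) (w i) := fun i => (hR.rW i).2.1
  have uF : ∀ i j, q j ≠ q i → u i ∈ Far G (q j) := fun i j h => (R1 _ _ _ (hR.rU i) (qQ j) h).1
  have wF : ∀ i j, q j ≠ q i → w i ∈ Far G (q j) := fun i j h => (R1 _ _ _ (hR.rW i) (qQ j) h).1
  have FS : ∀ i, Far G (q i) ⊆ {v : V | v ≠ z} ∩ Far G (q i) :=
    fun i v hv => ⟨nz v (R3 _ (qQ i) v hv), hv⟩
  have cc : ∀ j p p', Comp G (q j) p p' → Cn G ({v : V | v ≠ z} ∩ Far G (q j)) p p' :=
    fun j p p' h => C3 _ _ _ _ (FS j) ((C5 _ _ _).mp h)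
  have fsym : ∀ a b : V, a ∈ Far G b → b ∈ Far G a :=
    fun a b h => ⟨h.1.symm, fun h' => h.2 h'.symm⟩
  -- a component not containing `c` is in the far set of `c`
  have kf : ∀ y a c, y ∈ Q → c ∈ Far G y → ¬ Comp G y a c → KC G y a ⊆ {v : V | v ≠ z} ∩ Far G c := by
    intro y a c hy hc hn v hv
    have hv' : Comp G y a v := hv
    have hvF : v ∈ Far G y := hv'.2.1
    refine ⟨nz v (R3 _ hy v hvF), ?_, ?_⟩
    · intro h
      exact hn (h ▸ hv')
    · intro h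
      apply hn
      rw [C5] at hv' ⊢
      exact C2 _ _ _ _ hv' (C4 _ _ _ hvF hc h.symm)
  apply hRCY V G {v | v ≠ z} m q u w (fun i => xor (σ (u i)) (σ (w i))) _ hx (hE.red.naj z)
  refine ⟨hR.m3, hR.pq, hR.pu, hR.pw, ?_, fun i => ⟨qS i, uS i, wS i⟩, fun i => ⟨qu i, qw i⟩, ?_, ?_, ?_⟩
  · intro i
    rw [hR.pu, hR.pw]
  · intro i j h1 h2
    have h := hR.inj i j h1 h2
    exact ⟨hE.mx.1 _ (qQ i) _ (qQ j) h, uF i j h.symm, wF i j h.symm⟩
  · intro i j h1 h2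
    exact cc j _ _ (hR.lk i j h1 h2)
  · intro i
    have m3 := hR.m3
    have n01 : q i ≠ q (i + 1) := hR.inj i (i + 1) (by omega) (by omega)
    have n02 : q i ≠ q (i + 2) := hR.inj i (i + 2) (by omega) (by omega)
    have n12 : q (i + 1) ≠ q (i + 2) := hR.inj (i + 1) (i + 2) (by omega) (by omega)
    obtain ⟨s1, s2⟩ := hSGF V G Q σ hE (q i) (u i) (w i) (hR.rU i) (hR.rW i)
    by_cases hs : σ (u i) = σ (w i)
    · have hd : xor (σ (u i)) (σ (w i)) = false := by rw [hs]; simp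
      rcases s1 hs (q (i + 1)) (qQ _) (q (i + 2)) (qQ _) n01.symm n02.symm n12 with h | h
      · exact ⟨i + 1, by omega, by omega, Or.inl ⟨hd, (C1 _ _ _ (cc _ _ _ h)).2⟩⟩
      · exact ⟨i + 2, by omega, by omega, Or.inl ⟨hd, (C1 _ _ _ (cc _ _ _ h)).2⟩⟩
    · have hd : xor (σ (u i)) (σ (w i)) = true := by
        revert hs
        cases σ (u i) <;> cases σ (w i) <;> simp
      have hcf : ∀ y ∈ Q, y ≠ q i → ¬ Comp G y (u i) (w i) := fun y hy h => (s2 hs y hy h).1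
      have hc1 := hcf (q (i + 1)) (qQ _) n01.symm
      have hc1' : ¬ Cn G (Far G (q (i + 1))) (u i) (w i) := fun h => hc1 ((C5 _ _ _).mpr h)
      refine ⟨i + 1, by omega, by omega, Or.inr ⟨hd, ?_, ?_, ?_, ?_⟩⟩
      · intro h
        apply hc1'
        rw [h]
        exact ⟨uF i (i + 1) n01.symm, Relation.ReflTransGen.refl⟩
      · intro h
        exact hc1' (C4 _ _ _ (uF i (i + 1) n01.symm) (wF i (i + 1) n01.symm) h.symm)
      · -- from `u i` to `q (i + 1)` outside the neighbourhood of `w i`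
        have nm : q i ≠ q (i + m - 1) := hR.inj i (i + m - 1) (by omega) (by omega)
        have l1 := hR.lk i (i + m - 1) (by omega) (by omega)
        have l2 := kf (q (i + m - 1)) (u i) (w i) (qQ _) (wF i _ nm.symm) (hcf _ (qQ _) nm.symm)
        have l3 := C3 _ _ _ _ l2 (C6 _ _ _ l1)
        have l4 := (C1 _ _ _ l3).1
        have l5 : q (i + 1) ∈ {v : V | v ≠ z} ∩ Far G (w i) := ⟨qS _, fsym _ _ (wF i (i + 1) n01.symm)⟩
        exact C2 _ _ _ _ l3 (C4 _ _ _ l4 l5 (qw (i + 1)).symm)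
      · have nm : q i ≠ q (i + m - 1) := hR.inj i (i + m - 1) (by omega) (by omega)
        have n1m : q (i + 1) ≠ q (i + m - 1) := hR.inj (i + 1) (i + m - 1) (by omega) (by omega)
        have l1 := hR.lk (i + m - 1) (i + 1 + m) (by omega) (by omega)
        rw [hR.pq, show i + m - 1 + 1 = i + m by omega, hR.pw] at l1
        have l1' : Comp G (q (i + 1)) (w i) (u (i + m - 1)) := by
          rw [C5] at l1 ⊢
          exact (C1 _ _ _ l1).2
        have hn : ¬ Comp G (q (i + 1)) (w i) (u i) := by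
          intro h
          apply hc1
          rw [C5] at h ⊢
          exact (C1 _ _ _ h).2
        have l2 := kf (q (i + 1)) (w i) (u i) (qQ _) (uF i _ n01.symm) hn
        have l3 := C3 _ _ _ _ l2 (C6 _ _ _ l1')
        have l4 := (C1 _ _ _ l3).1
        have l5 : q (i + m - 1) ∈ {v : V | v ≠ z} ∩ Far G (u i) := ⟨qS _, fsym _ _ (uF i _ nm.symm)⟩
        have l6 : q (i + 1) ∈ {v : V | v ≠ z} ∩ Far G (u i) := ⟨qS _, fsym _ _ (uF i (i + 1) n01.symm)⟩
        exact C2 _ _ _ _ l3 (C2 _ _ _ _ (C4 _ _ _ l4 l5 (qu _).symm)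
          (C4 _ _ _ l5 l6 (hE.mx.1 _ (qQ _) _ (qQ _) n1m.symm)))

end Pool.Agent.Helper64.FL
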