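import Pool.Agent.Helper64.FL.StG

set_option autoImplicit false

/-! Full list for MP_866009_co: ST_SP3. -/

namespace Pool.Agent.Helper64.FL

open Pool.Agent.Helper64.CT Pool.Agent.Helper64.DT
open Pool.Agent.Helper64.HG (Ovl Model Circ IC HellyCircle ChordModel)

theorem st_SP3 (h1 : ST_CNB) (_h2 : ST_PTB) (h3 : ST_SPN) (h4 : ST_EXI) : ST_SP3 := by
  intro V G S A B a b hab ha hb hAnti
  obtain ⟨c1, _, _, _, _, _, _⟩ := h1 V G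
  have hbA : b ∉ A := fun h => (hAnti b h b hb).1 rfl
  obtain ⟨u1, hu1A, hu1S, w1, hw1, hc1⟩ := h4 V G S A a b hab ha hbA
  have hw1B : w1 ∉ B := fun h => (hAnti u1 hu1A w1 h).2 hw1
  obtain ⟨u2, hu2B, hu2S, w2, hw2, hc2⟩ := h4 V G (S \ A) B b w1 (c1 _ _ _ hc1).2 hb hw1B
  obtain ⟨hw1T, hc3⟩ := c1 _ _ _ hc2
  obtain ⟨y, M, z, hyA, hyT, hzB, hzT, hP, hM, hyz⟩ := h3 V G ((S \ A) \ B)
    {v | ∃ u ∈ A, u ∈ S ∧ G.Adj u v} {v | ∃ u ∈ B, u ∈ S ∧ G.Adj u v}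
    ⟨w1, ⟨u1, hu1A, hu1S, hw1⟩, w2, ⟨u2, hu2B, hu2S.1, hw2⟩, hc3⟩
  refine ⟨y, M, z, hP, ?_, hyA, hzB, ?_, ?_⟩
  · rintro u (rfl | hu | rfl)
    · exact ⟨hyT.1.1, hyT.1.2, hyT.2⟩
    · obtain ⟨h, _, _⟩ := hM u hu
      exact ⟨h.1.1, h.1.2, h.2⟩
    · exact ⟨hzT.1.1, hzT.1.2, hzT.2⟩
  · intro u hu w hwS hw hadj
    obtain ⟨_, hA, hB⟩ := hM u hu
    rcases hw with hw | hw
    · exact hA ⟨w, hw, hwS, hadj.symm⟩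
    · exact hB ⟨w, hw, hwS, hadj.symm⟩
  · intro hne w hwS
    obtain ⟨hy, hz⟩ := hyz hne
    exact ⟨fun hwB hadj => hy ⟨w, hwB, hwS, hadj.symm⟩,
      fun hwA hadj => hz ⟨w, hwA, hwS, hadj.symm⟩⟩

end Pool.Agent.Helper64.FL
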