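import Pool.Agent.Helper64.FL.StH

/-! Full list for MP_866009_co: the three cases for a minimal odd cycle of conflicts. -/

set_option autoImplicit false

namespace Pool.Agent.Helper64.FL

open Pool.Agent.Helper64.CT Pool.Agent.Helper64.DT
open Pool.Agent.Helper64.HG (Ovl Model Circ IC HellyCircle ChordModel)

theorem st_TCH (h1 : ST_DOM) (h2 : ST_DO2) (h3 : ST_SHF) : ST_TCH := by
  intro V G x k y hy
  have k5 := hy.k5
  -- two consecutive dominating indices
  have key : ∀ z : ℕ → V, MOC G x k z → Dom0 G x k z → Dom0 G x k (fun l => z (l + 1)) →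
      ∀ i j, 2 ≤ i → i + 2 ≤ j → j < k → ∀ n, n ∈ Att G x (z i) → n ∉ Att G x (z j) := by
    intro z hz d0 d1 i j hi hij hj n hn1 hn2
    rcases h1 V G x k z hz i j n hij (by omega) hn1 hn2 with h | h
    · exact h2 V G x k z hz 0 i (by omega) (by omega) d0 h
    · by_cases hjk : j + 2 ≤ k
      · exact h2 V G x k z hz 0 j (by omega) (by omega) d0 h
      · exact h2 V G x k z hz 1 j (by omega) (by omega) d1 h
  by_cases hd : ∃ i, Dom0 G x k (fun l => y (l + i))
  · obtain ⟨i0, hi0⟩ := hd
    have hz0 := (h3 V G x k y hy).1 i0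
    generalize (fun i => y (i + i0)) = z at hz0 hi0
    by_cases d1 : Dom0 G x k (fun l => z (l + 1))
    · exact ⟨z, hz0, Or.inr (Or.inl ⟨hi0, d1, key z hz0 hi0 d1⟩)⟩
    by_cases d2 : Dom0 G x k (fun l => z (l + (k - 1)))
    · have hz1 := (h3 V G x k z hz0).1 (k - 1)
      have e : (fun l => (fun i => z (i + (k - 1))) (l + 1)) = z := by
        funext l
        show z (l + 1 + (k - 1)) = z l
        have : l + 1 + (k - 1) = l + k := by omega
        rw [this, hz0.per]
      have d3 : Dom0 G x k (fun l => (fun i => z (i + (k - 1))) (l + 1)) := by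
        rw [e]; exact hi0
      exact ⟨_, hz1, Or.inr (Or.inl ⟨d2, d3, key _ hz1 d2 d3⟩)⟩
    refine ⟨z, hz0, Or.inr (Or.inr ⟨hi0, ?_⟩)⟩
    intro i j hi hij hj n hn1 hn2
    rcases h1 V G x k z hz0 i j n hij (by omega) hn1 hn2 with h | h
    · by_cases h4 : i = 1
      · subst h4; exact d1 h
      · exact h2 V G x k z hz0 0 i (by omega) (by omega) hi0 h
    · by_cases h4 : j + 2 ≤ k
      · exact h2 V G x k z hz0 0 j (by omega) (by omega) hi0 h
      · have : j = k - 1 := by omega
        subst this; exact d2 h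
  · refine ⟨y, hy, Or.inl ?_⟩
    intro i j hij hji n hn1 hn2
    rcases h1 V G x k y hy i j n hij hji hn1 hn2 with h | h
    · exact hd ⟨i, h⟩
    · exact hd ⟨j, h⟩

end Pool.Agent.Helper64.FL
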