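import Pool.Agent.Helper64.FL.Pre

set_option autoImplicit false

/-! Full list for MP_866009_co: ST_PRC. -/

namespace Pool.Agent.Helper64.FL

theorem prc_get (p : Pre) (l : List (ℕ × ℕ)) (c0 : ℕ)
    (h : chkM p l c0 = true) (i : ℕ) (hi : i < l.length) (s : Sk)
    (hs : inst p (c0 + i) = some s) :
    ∃ k m, crt s 32 k m 0 = true := by
  induction l generalizing c0 i with
  | nil => exact absurd hi (Nat.not_lt_zero _)
  | cons x l ih =>
    obtain ⟨k, m⟩ := x
    have h1 : ((match inst p c0 with
     | none => true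
     | some s => crt s 32 k m 0) && chkM p l (Nat.succ c0)) = true := h
    rw [Bool.and_eq_true] at h1
    cases i with
    | zero =>
      rw [Nat.add_zero] at hs
      have h2 := h1.1
      rw [hs] at h2
      exact ⟨k, m, h2⟩
    | succ i =>
      refine ih (Nat.succ c0) h1.2 i (by simpa using hi) ?_
      have e : Nat.succ c0 + i = c0 + (i + 1) := by
        simp only [Nat.succ_eq_add_one]; omega
      rw [e]; exact hs

theorem st_PRC (h1 : ST_PIN) (h2 : ST_CRT) : ST_PRC := by
  intro V G p f L l S hP hc hS hL hN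
  unfold chkR at hc
  rw [Bool.and_eq_true, Bool.and_eq_true] at hc
  obtain ⟨⟨hok, hlen⟩, hl⟩ := hc
  rw [Nat.beq_eq] at hlen
  obtain ⟨ch, s, hch, hs, f', L', hM, hf, hI⟩ := h1 V G p f L hP hok
  obtain ⟨k, m, h3⟩ := prc_get p l 0 hl ch (by rw [hlen]; exact hch) s
    (by rw [Nat.zero_add]; exact hs)
  have h4 := h2 V G s f' L' 32 k m S hM hN
    (fun i hi _ => by
      obtain ⟨j, hj, e⟩ := hf i hi
      rw [e]
      exact hS j hj)
    (fun y hy x hx => by
      obtain ⟨A, hA, hxA⟩ := hI y hy x hx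
      exact hL A hA x hxA)
  rw [h3] at h4
  exact Bool.noConfusion h4

end Pool.Agent.Helper64.FL
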